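import Pool.Agent.R759.FPMain

/-! # Flexible polyhedra in `S^n` with a nonzero increment of the oriented volume -/

set_option autoImplicit false

namespace Pool.Agent.Results.MP_cf0a62_gt.NonzeroIncrement

open Pool.Agent.R759.FP

/-- For every `n ≥ 3` there is a flexible polyhedron in `S^n` and a closed curve in its
configuration space along which the increment of the oriented volume is a nonzero multiple of
`vol(S^n)`; its oriented volume has no continuous real-valued branch on the configuration space. -/
theorem result (n : ℕ) (hn : 3 ≤ n) :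
    ∃ (K : OrientedPseudomanifold n) (P₀ : Fin K.numVert → Sph n),
      IsPolyhedron K P₀ ∧ IsFlexible K P₀ ∧
      (∃ γ : unitInterval → (Fin K.numVert → Sph n), Continuous γ ∧ γ 0 = γ 1 ∧
        (∀ t, γ t ∈ Config K P₀) ∧ ∃ k : ℤ, k ≠ 0 ∧ IsIncrement K γ (k * volS n)) ∧
      ¬ ∃ F : (Fin K.numVert → Sph n) → ℝ, ContinuousOn F (Config K P₀) ∧
        ∀ P ∈ Config K P₀, RepresentsVolume K P (F P) := by
  obtain ⟨m, rfl⟩ : ∃ m, n = m + 1 := ⟨n - 1, by omega⟩
  have hm : 0 < m := by omega
  have hmem : ∀ t, loop hm t ∈ Config (KK m hm) (gam hm (Real.pi / 2)) := fun t =>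
    gam_mem_config hm _ _
  refine ⟨KK m hm, gam hm (Real.pi / 2), gam_isPolyhedron hm _, gam_flexible hm,
    ⟨loop hm, continuous_loop hm, loop_closed hm, hmem, (-1) ^ (m + 1), ?_, loop_increment hm⟩, ?_⟩
  · exact pow_ne_zero _ (by norm_num)
  · rintro ⟨F, hF, hF'⟩
    obtain ⟨V, hV, hV', hinc⟩ := loop_increment hm
    have hc : Continuous fun t => F (loop hm t) :=
      hF.comp_continuous (continuous_loop hm) hmem
    have h := increment_unique (KK m hm) (loop hm) V (fun t => F (loop hm t)) hV hc hV'
      (fun t => hF' _ (hmem t))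
    rw [hinc, loop_closed hm, sub_self] at h
    have hpos := volS_pos (m + 1)
    rcases mul_eq_zero.1 h with h1 | h1
    · have h2 : ((-1 : ℤ)) ^ (m + 1) = 0 := by exact_mod_cast h1
      exact pow_ne_zero _ (by norm_num) h2
    · exact hpos.ne' h1

end Pool.Agent.Results.MP_cf0a62_gt.NonzeroIncrement
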